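import Pool.Agent.Helper62.VX.Stm
import Pool.Agent.Helper62.BL.PS
import Pool.Agent.Helper12.BW.Strong

/-!
# Formal roots, the chain rule and logarithmic derivatives
-/

set_option autoImplicit false
set_option linter.unusedSectionVars false

open Polynomial

namespace Pool.Agent.Helper72.VX

open Pool.Agent.Helper62.BM Pool.Agent.Helper62.BW Pool.Agent.Helper62.BX Pool.Agent.Helper62.CX


open Pool.Agent.Helper12.BW (tay_der)

/-- Hensel's lemma without the assumption that `f` is monic (the proof is Mathlib's). -/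
theorem hensel (R : Type*) [CommRing R] (I : Ideal R) [IsAdicComplete I R] (f : R[X]) (a₀ : R)
    (h₁ : f.eval a₀ ∈ I) (h₂ : IsUnit (Ideal.Quotient.mk I (f.derivative.eval a₀))) :
    ∃ a : R, f.IsRoot a ∧ a - a₀ ∈ I := by
  classical
    let f' := derivative f
    -- we define a sequence `c n` by starting at `a₀` and then continually
    -- applying the function sending `b` to `b - f(b)/f'(b)` (Newton's method).
    -- Note that `f'.eval b` is a unit, because `b` has the same residue as `a₀` modulo `I`.
    let c : ℕ → R := fun n => Nat.recOn n a₀ fun _ b => b - f.eval b * Ring.inverse (f'.eval b)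
    have hc : ∀ n, c (n + 1) = c n - f.eval (c n) * Ring.inverse (f'.eval (c n)) := by
      intro n
      simp only [c]
    -- we now spend some time determining properties of the sequence `c : ℕ → R`
    -- `hc_mod`: for every `n`, we have `c n ≡ a₀ [SMOD I]`
    -- `hf'c`  : for every `n`, `f'.eval (c n)` is a unit
    -- `hfcI`  : for every `n`, `f.eval (c n)` is contained in `I ^ (n+1)`
    have hc_mod : ∀ n, c n ≡ a₀ [SMOD I] := by
      intro n
      induction n with
      | zero => rfl
      | succ n ih => ?_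
      rw [hc, sub_eq_add_neg, ← add_zero a₀]
      refine ih.add ?_
      rw [SModEq.zero, Ideal.neg_mem_iff]
      refine I.mul_mem_right _ ?_
      rw [← SModEq.zero] at h₁ ⊢
      exact (ih.eval f).trans h₁
    have hf'c : ∀ n, IsUnit (f'.eval (c n)) := by
      intro n
      have := isLocalHom_of_le_jacobson_bot I (IsAdicComplete.le_jacobson_bot I)
      apply IsUnit.of_map (Ideal.Quotient.mk I)
      convert! h₂ using 1
      exact SModEq.def.mp ((hc_mod n).eval _)
    have hfcI : ∀ n, f.eval (c n) ∈ I ^ (n + 1) := by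
      intro n
      induction n with
      | zero => simpa only [Nat.rec_zero, zero_add, pow_one] using! h₁
      | succ n ih => ?_
      rw [← taylor_eval_sub (c n), hc, sub_eq_add_neg, sub_eq_add_neg,
        add_neg_cancel_comm]
      rw [eval_eq_sum, sum_over_range' _ _ _ (lt_add_of_pos_right _ zero_lt_two), ←
        Finset.sum_range_add_sum_Ico _ (Nat.le_add_left _ _)]
      swap
      · intro i
        rw [zero_mul]
      refine Ideal.add_mem _ ?_ ?_
      · rw [← one_add_one_eq_two, Finset.sum_range_succ, Finset.range_one, Finset.sum_singleton,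
          taylor_coeff_zero, taylor_coeff_one, pow_zero, pow_one, mul_one, mul_neg,
          mul_left_comm, Ring.mul_inverse_cancel _ (hf'c n), mul_one, add_neg_cancel]
        exact Ideal.zero_mem _
      · refine Submodule.sum_mem _ ?_
        simp only [Finset.mem_Ico]
        rintro i ⟨h2i, _⟩
        have aux : n + 2 ≤ i * (n + 1) := by trans 2 * (n + 1) <;> nlinarith only [h2i]
        refine Ideal.mul_mem_left _ _ (Ideal.pow_le_pow_right aux ?_)
        rw [pow_mul']
        exact Ideal.pow_mem_pow ((Ideal.neg_mem_iff _).2 <| Ideal.mul_mem_right _ _ ih) _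
    -- we are now in the position to show that `c : ℕ → R` is a Cauchy sequence
    have aux : ∀ m n, m ≤ n → c m ≡ c n [SMOD (I ^ m • ⊤ : Ideal R)] := by
      intro m n hmn
      rw [← Ideal.one_eq_top, Ideal.smul_eq_mul, mul_one]
      obtain ⟨k, rfl⟩ := Nat.exists_eq_add_of_le hmn
      clear hmn
      induction k with
      | zero => rw [add_zero]
      | succ k ih => ?_
      rw [← add_assoc, hc, ← add_zero (c m), sub_eq_add_neg]
      refine ih.add ?_
      symm
      rw [SModEq.zero, Ideal.neg_mem_iff]
      refine Ideal.mul_mem_right _ _ (Ideal.pow_le_pow_right ?_ (hfcI _))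
      rw [add_assoc]
      exact le_self_add
    -- hence the sequence converges to some limit point `a`, which is the `a` we are looking for
    obtain ⟨a, ha⟩ := IsPrecomplete.prec' c (aux _ _)
    refine ⟨a, ?_, ?_⟩
    · show f.IsRoot a
      suffices ∀ n, f.eval a ≡ 0 [SMOD (I ^ n • ⊤ : Ideal R)] by exact IsHausdorff.haus' _ this
      intro n
      specialize ha n
      rw [← Ideal.one_eq_top, Ideal.smul_eq_mul, mul_one] at ha ⊢
      refine (ha.symm.eval f).trans ?_
      rw [SModEq.zero]
      exact Ideal.pow_le_pow_right le_self_add (hfcI _)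
    · show a - a₀ ∈ I
      specialize ha (0 + 1)
      rw [hc, pow_one, ← Ideal.one_eq_top, Ideal.smul_eq_mul, mul_one, sub_eq_add_neg] at ha
      rw [← SModEq.sub_mem, ← add_zero a₀]
      refine ha.symm.trans (SModEq.rfl.add ?_)
      rw [SModEq.zero, Ideal.neg_mem_iff]
      exact Ideal.mul_mem_right _ _ h₁

section

variable {k : Type} [Field k]

/-- `G(s(τ), t₀ + τ)`; the outer variable of `G` is `x`, the inner one `t`. -/
noncomputable def sub (t₀ : k) (s : PowerSeries k) : k[X][X] →+* PowerSeries k :=
  Polynomial.eval₂RingHom (tay t₀) s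

theorem sub_apply (t₀ : k) (s : PowerSeries k) (G : k[X][X]) :
    sub t₀ s G = (G.map (tay t₀)).eval s := by
  rw [sub, Polynomial.coe_eval₂RingHom, Polynomial.eval_map]

theorem sub_C (t₀ : k) (s : PowerSeries k) (q : k[X]) : sub t₀ s (Polynomial.C q) = tay t₀ q := by
  rw [sub, Polynomial.coe_eval₂RingHom, Polynomial.eval₂_C]

theorem sub_X (t₀ : k) (s : PowerSeries k) : sub t₀ s X = s := by
  rw [sub, Polynomial.coe_eval₂RingHom, Polynomial.eval₂_X]

/-- The value at `τ = 0`. -/
theorem sub_const (t₀ : k) (s : PowerSeries k) (G : k[X][X]) :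
    PowerSeries.constantCoeff (sub t₀ s G) =
      (G.map (evalRingHom t₀)).eval (PowerSeries.constantCoeff s) := by
  induction G using Polynomial.induction_on' with
  | add p q hp hq => rw [map_add, map_add, hp, hq, Polynomial.map_add, eval_add]
  | monomial m a =>
    rw [← C_mul_X_pow_eq_monomial, map_mul, map_pow, sub_C, sub_X, map_mul, map_pow, tay_const]
    simp

theorem dt_add (F G : k[X][X]) : dt (F + G) = dt F + dt G := by
  ext1 i
  rw [coeff_dt, coeff_add, derivative_add, coeff_add, coeff_dt, coeff_dt]

theorem dt_monomial (m : ℕ) (a : k[X]) : dt (monomial m a) = monomial m (derivative a) := by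
  ext1 i
  rw [coeff_dt, coeff_monomial, coeff_monomial]
  split_ifs
  · rfl
  · exact derivative_zero

/-- The chain rule. -/
theorem sub_der (t₀ : k) (s : PowerSeries k) (G : k[X][X]) :
    PowerSeries.derivative k (sub t₀ s G) =
      sub t₀ s (dt G) + sub t₀ s (derivative G) * PowerSeries.derivative k s := by
  induction G using Polynomial.induction_on' with
  | add p q hp hq =>
    rw [map_add, map_add, hp, hq, dt_add, derivative_add, map_add, map_add]
    ring
  | monomial m a =>
    rw [dt_monomial, derivative_monomial, ← C_mul_X_pow_eq_monomial, ← C_mul_X_pow_eq_monomial,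
      ← C_mul_X_pow_eq_monomial,
      (sub t₀ s).map_mul, (sub t₀ s).map_mul, (sub t₀ s).map_mul, (sub t₀ s).map_pow,
      (sub t₀ s).map_pow, sub_C, sub_C, sub_C,
      sub_X, Derivation.leibniz, Derivation.leibniz_pow, tay_der, smul_eq_mul, smul_eq_mul,
      nsmul_eq_mul, smul_eq_mul, (tay t₀).map_mul, map_natCast]
    ring

/-- **Formal roots.** A simple zero `x₀` of `G(x, t₀)` extends to a zero `s(τ)` of `G(x, t₀ + τ)`. -/
theorem exists_root (G : k[X][X]) (t₀ x₀ : k) (h0 : (G.map (evalRingHom t₀)).eval x₀ = 0)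
    (h1 : (derivative (G.map (evalRingHom t₀))).eval x₀ ≠ 0) :
    ∃ s : PowerSeries k, PowerSeries.constantCoeff s = x₀ ∧ sub t₀ s G = 0 := by
  have hmem : ∀ u : PowerSeries k, u ∈ (Ideal.span {PowerSeries.X} : Ideal (PowerSeries k)) ↔
      PowerSeries.constantCoeff u = 0 := by
    intro u
    rw [Ideal.mem_span_singleton, PowerSeries.X_dvd_iff]
  have e0 : ∀ H : k[X][X], PowerSeries.constantCoeff ((H.map (tay t₀)).eval (PowerSeries.C x₀)) =
      (H.map (evalRingHom t₀)).eval x₀ := by
    intro H
    rw [← sub_apply, sub_const, PowerSeries.constantCoeff_C]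
  obtain ⟨s, hs, hs0⟩ := hensel (PowerSeries k) (Ideal.span {PowerSeries.X}) (G.map (tay t₀))
    (PowerSeries.C x₀) (by rw [hmem, e0, h0]) (by
      refine IsUnit.map _ ?_
      rw [derivative_map, PowerSeries.isUnit_iff_constantCoeff, e0, isUnit_iff_ne_zero]
      rwa [derivative_map] at h1)
  refine ⟨s, ?_, ?_⟩
  · rw [hmem, map_sub, PowerSeries.constantCoeff_C, sub_eq_zero] at hs0
    exact hs0
  · rw [sub_apply]
    exact hs

/-- The root is unique. -/
theorem root_unique (G : k[X][X]) (t₀ : k) (s s' : PowerSeries k)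
    (h : PowerSeries.constantCoeff s = PowerSeries.constantCoeff s')
    (h1 : (derivative (G.map (evalRingHom t₀))).eval (PowerSeries.constantCoeff s) ≠ 0)
    (hs : sub t₀ s G = 0) (hs' : sub t₀ s' G = 0) : s = s' := by
  rw [sub_apply] at hs hs'
  refine IsLocalRing.eq_of_eval_eq_zero_of_not_isUnit_sub hs hs' ?_ ?_
  · rw [PowerSeries.isUnit_iff_constantCoeff, map_sub, h, sub_self]
    exact not_isUnit_zero
  · rw [derivative_map, ← sub_apply, PowerSeries.isUnit_iff_constantCoeff, sub_const,
      isUnit_iff_ne_zero]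
    rwa [derivative_map] at h1

/-- `X φ' = φ (ν + X w)`, `ν` the order of `φ ≠ 0`. -/
theorem log_der {φ : PowerSeries k} (hφ : φ ≠ 0) : ∃ w : PowerSeries k,
    PowerSeries.X * PowerSeries.derivative k φ =
      φ * ((φ.order.toNat : PowerSeries k) + PowerSeries.X * w) := by
  obtain ⟨ν, hν⟩ : ∃ ν, ν = φ.order.toNat := ⟨_, rfl⟩
  obtain ⟨u, hu⟩ : ∃ u, u = PowerSeries.divXPowOrder φ := ⟨_, rfl⟩
  have h1 : PowerSeries.X ^ ν * u = φ := by
    rw [hν, hu]
    exact PowerSeries.X_pow_order_mul_divXPowOrder
  have hu0 : PowerSeries.constantCoeff u ≠ 0 := by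
    rw [hu, Ne, PowerSeries.constantCoeff_divXPowOrder_eq_zero_iff]
    exact hφ
  have hui : u * u⁻¹ = 1 := PowerSeries.mul_inv_cancel u hu0
  have hX : PowerSeries.derivative k (PowerSeries.X : PowerSeries k) = 1 := PowerSeries.derivative_X
  have hpow : PowerSeries.X * (((ν : ℕ) : PowerSeries k) * PowerSeries.X ^ (ν - 1)) =
      ((ν : ℕ) : PowerSeries k) * PowerSeries.X ^ ν := by
    rcases Nat.eq_zero_or_pos ν with h | h
    · rw [h]
      simp
    · obtain ⟨j, rfl⟩ := Nat.exists_eq_succ_of_ne_zero h.ne'
      rw [Nat.succ_sub_one, pow_succ]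
      ring
  refine ⟨PowerSeries.derivative k u * u⁻¹, ?_⟩
  rw [← hν, ← h1, Derivation.leibniz, Derivation.leibniz_pow, hX, smul_eq_mul, smul_eq_mul,
    nsmul_eq_mul, smul_eq_mul, mul_one]
  calc PowerSeries.X * (PowerSeries.X ^ ν * PowerSeries.derivative k u +
        u * (((ν : ℕ) : PowerSeries k) * PowerSeries.X ^ (ν - 1))) =
        PowerSeries.X ^ ν * (PowerSeries.X * PowerSeries.derivative k u) +
        u * (PowerSeries.X * (((ν : ℕ) : PowerSeries k) * PowerSeries.X ^ (ν - 1))) := by ring
    _ = PowerSeries.X ^ ν * (PowerSeries.X * PowerSeries.derivative k u) +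
        u * (((ν : ℕ) : PowerSeries k) * PowerSeries.X ^ ν) := by rw [hpow]
    _ = PowerSeries.X ^ ν * (((ν : ℕ) : PowerSeries k) * u +
        PowerSeries.X * PowerSeries.derivative k u * 1) := by ring
    _ = PowerSeries.X ^ ν * (((ν : ℕ) : PowerSeries k) * u +
        PowerSeries.X * PowerSeries.derivative k u * (u * u⁻¹)) := by rw [hui]
    _ = _ := by ring

theorem order_pos {φ : PowerSeries k} (hφ : φ ≠ 0) (h0 : PowerSeries.constantCoeff φ = 0) :
    0 < φ.order.toNat := by
  rcases Nat.eq_zero_or_pos φ.order.toNat with h | h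
  · exfalso
    have h1 : PowerSeries.X ^ φ.order.toNat * PowerSeries.divXPowOrder φ = φ :=
      PowerSeries.X_pow_order_mul_divXPowOrder
    rw [h, pow_zero, one_mul] at h1
    have h2 := (PowerSeries.constantCoeff_divXPowOrder_eq_zero_iff (f := φ)).not.2 hφ
    rw [h1] at h2
    exact h2 h0
  · exact h

/-- **The residue, one branch.** If `P φ = τ D φ'` then `P(0) = ν D(0)`, `ν` the order of `φ`. -/
theorem res_one {φ : PowerSeries k} (hφ : φ ≠ 0) (h0 : PowerSeries.constantCoeff φ = 0) :
    ∃ ν : ℕ, 0 < ν ∧ ∀ P D : PowerSeries k,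
      P * φ = PowerSeries.X * D * PowerSeries.derivative k φ →
        PowerSeries.constantCoeff P = (ν : k) * PowerSeries.constantCoeff D := by
  obtain ⟨w, hw⟩ := log_der hφ
  refine ⟨φ.order.toNat, order_pos hφ h0, fun P D h => ?_⟩
  have h1 : P * φ = (D * ((φ.order.toNat : PowerSeries k) + PowerSeries.X * w)) * φ := by
    rw [h]
    calc PowerSeries.X * D * PowerSeries.derivative k φ =
        D * (PowerSeries.X * PowerSeries.derivative k φ) := by ring
      _ = _ := by
        rw [hw]
        ring
  rw [mul_right_cancel₀ hφ h1, map_mul, map_add, map_mul, map_natCast,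
    PowerSeries.constantCoeff_X, zero_mul, add_zero]
  ring

/-- **The residue, two branches.** -/
theorem res_two {α β : PowerSeries k} (hα : α ≠ 0) (hβ : β ≠ 0)
    (hα0 : PowerSeries.constantCoeff α = 0) {r q : ℕ} (hr : 0 < r) :
    ∃ ν : ℕ, 0 < ν ∧ ∀ P D : PowerSeries k,
      P * (α * β) = PowerSeries.X * D * ((r : PowerSeries k) * PowerSeries.derivative k α * β +
        (q : PowerSeries k) * α * PowerSeries.derivative k β) →
        PowerSeries.constantCoeff P = (ν : k) * PowerSeries.constantCoeff D := by
  obtain ⟨w, hw⟩ := log_der hα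
  obtain ⟨w', hw'⟩ := log_der hβ
  refine ⟨r * α.order.toNat + q * β.order.toNat,
    Nat.add_pos_left (Nat.mul_pos hr (order_pos hα hα0)) _, fun P D h => ?_⟩
  have h1 : P * (α * β) = (D * ((r : PowerSeries k) * ((α.order.toNat : PowerSeries k) +
      PowerSeries.X * w) + (q : PowerSeries k) * ((β.order.toNat : PowerSeries k) +
      PowerSeries.X * w'))) * (α * β) := by
    rw [h]
    calc PowerSeries.X * D * ((r : PowerSeries k) * PowerSeries.derivative k α * β +
        (q : PowerSeries k) * α * PowerSeries.derivative k β) =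
        D * ((r : PowerSeries k) * (PowerSeries.X * PowerSeries.derivative k α) * β +
        (q : PowerSeries k) * α * (PowerSeries.X * PowerSeries.derivative k β)) := by ring
      _ = _ := by
        rw [hw, hw']
        ring
  rw [mul_right_cancel₀ (mul_ne_zero hα hβ) h1, map_mul, map_add, map_mul, map_mul, map_add,
    map_add, map_mul, map_mul, map_natCast, map_natCast, map_natCast, map_natCast,
    PowerSeries.constantCoeff_X, zero_mul, zero_mul, add_zero, add_zero]
  push_cast
  ring

end

end Pool.Agent.Helper72.VX
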